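import Pool.Agent.QUD.StmtsC
import Mathlib.Analysis.SpecialFunctions.Trigonometric.Cotangent

/-!
# Squad QUD, row HMO (helper94)

Monotonicity of `sM`: the logarithmic derivative is a series of partial fractions.
-/

set_option autoImplicit false

namespace Pool.Agent.QUD.H94

open Filter Topology Pool.Agent.QUD

/-- the cotangent series over the reals -/
theorem cot_hasSum {t : ℝ} (h0 : 0 < t) (h1 : t < 1) :
    HasSum (fun n : ℕ => 1 / (t - (n + 1)) + 1 / (t + (n + 1)))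
      (Real.pi * (Real.cos (Real.pi * t) / Real.sin (Real.pi * t)) - 1 / t) := by
  have hz : (t : ℂ) ∈ Complex.integerComplement := by
    rw [Complex.integerComplement]
    rintro ⟨m, hm⟩
    have hm' : (m : ℝ) = t := by exact_mod_cast hm
    have h2 : (0 : ℝ) < m := by rw [hm']; exact h0
    have h3 : (m : ℝ) < 1 := by rw [hm']; exact h1
    have h4 : (0 : ℤ) < m := by exact_mod_cast h2
    have h5 : m < 1 := by exact_mod_cast h3
    omega
  have hs := (summable_cotTerm hz).hasSum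
  have he := cot_series_rep' hz
  have hs' : HasSum (fun n : ℕ => 1 / ((t : ℂ) - (n + 1)) + 1 / ((t : ℂ) + (n + 1)))
      (Real.pi * Complex.cot (Real.pi * t) - 1 / t) := by
    rw [he]
    exact hs
  rw [← Complex.hasSum_ofReal]
  have e1 : (((Real.pi * (Real.cos (Real.pi * t) / Real.sin (Real.pi * t)) - 1 / t : ℝ)) : ℂ)
      = Real.pi * Complex.cot (Real.pi * t) - 1 / t := by
    rw [Complex.cot]
    push_cast
    rfl
  rw [e1]
  have e2 : (fun n : ℕ => ((1 / (t - (n + 1)) + 1 / (t + (n + 1)) : ℝ) : ℂ))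
      = fun n : ℕ => 1 / ((t : ℂ) - (n + 1)) + 1 / ((t : ℂ) + (n + 1)) := by
    funext n
    push_cast
    rfl
  rw [e2]
  exact hs'

/-- telescoping -/
theorem tele (a : ℝ) (ha : 0 < a) :
    HasSum (fun n : ℕ => 1 / (n + a) - 1 / (n + a + 1)) (1 / a) := by
  have h1 : ∀ n : ℕ, ∑ i ∈ Finset.range n, (1 / ((i : ℝ) + a) - 1 / (i + a + 1))
      = 1 / a - 1 / (n + a) := by
    intro n
    induction n with
    | zero => simp
    | succ k ih =>
      rw [Finset.sum_range_succ, ih]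
      push_cast
      ring
  rw [hasSum_iff_tendsto_nat_of_nonneg]
  · simp_rw [h1]
    have h2 : Tendsto (fun n : ℕ => 1 / ((n : ℝ) + a)) atTop (𝓝 0) := by
      simp_rw [one_div]
      apply tendsto_inv_atTop_zero.comp
      exact tendsto_atTop_add_const_right _ _ tendsto_natCast_atTop_atTop
    simpa using h2.const_sub (1 / a)
  · intro i
    have : (0 : ℝ) ≤ i := Nat.cast_nonneg i
    rw [sub_nonneg]
    apply one_div_le_one_div_of_le <;> linarith

theorem aux1 (A B C : ℝ) (hA : A ≠ 0) (hB : B ≠ 0) :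
    2 * (1 / (-C) + 1 / A) + 2 * (1 / C - 1 / B) = 2 * (B - A) / (A * B) := by
  rw [one_div_neg_eq_neg_one_div]
  have h : 2 * (B - A) / (A * B) = 2 * (1 / A - 1 / B) := by
    field_simp
  rw [h]
  ring

theorem aux2 (P Q R S w u : ℝ) (hP : P ≠ 0) (hQ : Q ≠ 0) (hR : R ≠ 0) (hS : S ≠ 0)
    (h1 : w = P - S) (h2 : w = Q - R) :
    -(2 * u / P) + 4 * u / Q - 2 * u * (2 / R - 1 / S)
      = 2 * u * w * (1 / (P * S) - 2 / (Q * R)) := by
  have a : w * (1 / (P * S)) = 1 / S - 1 / P := by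
    rw [h1]; field_simp
  have b : w * (2 / (Q * R)) = 2 / R - 2 / Q := by
    rw [h2]; field_simp
  have c : 2 * u * w * (1 / (P * S) - 2 / (Q * R))
      = 2 * u * (w * (1 / (P * S)) - w * (2 / (Q * R))) := by ring
  rw [c, a, b]
  ring

theorem aux3 (S C x q : ℝ) (hS : S ≠ 0) (hC : C ≠ 0) (hx : x ≠ 0) (hq : q ≠ 0) :
    (C * x - S * 1) / x ^ 2 * (q / C) ^ 2
      + S / x * (2 * (q / C) ^ (2 - 1) * ((-(2 * x) * C - q * -S) / C ^ 2))
      = S / x * (q / C) ^ 2 * (C / S - 1 / x + 2 * (S / C) - 4 * x / q) := by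
  have e : (2 - 1 : ℕ) = 1 := rfl
  rw [e, pow_one]
  field_simp
  ring

/-- the partial fraction of the difference -/
theorem term_eq {u : ℝ} (h0 : 0 < u) (h1 : u < 1 / 2) (n : ℕ) :
    (1 / (u - (n + 1)) + 1 / (u + (n + 1)))
      + 2 * (1 / ((1 / 2 - u) - (n + 1)) + 1 / ((1 / 2 - u) + (n + 1)))
      + 2 * (1 / (n + (1 / 2 + u)) - 1 / (n + (1 / 2 + u) + 1))
      - 2 * u * (2 * (1 / (n + (1 : ℝ)) - 1 / (n + (1 : ℝ) + 1))
        - (1 / (n + (1 / 2 : ℝ)) - 1 / (n + (1 / 2 : ℝ) + 1)))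
      = 2 * u * (1 / 4 - u ^ 2) * (1 / (((n + 1) ^ 2 - u ^ 2) * ((n + 1) ^ 2 - 1 / 4))
        - 2 / (((n + 3 / 2) ^ 2 - u ^ 2) * ((n + 3 / 2) ^ 2 - 1 / 4))) := by
  have hn : (0 : ℝ) ≤ n := Nat.cast_nonneg n
  have a1 : u - (n + 1) ≠ 0 := by intro h; linarith
  have a2 : u + (n + 1) ≠ 0 := by intro h; linarith
  have a3 : (1 / 2 - u) - (n + 1) ≠ 0 := by intro h; linarith
  have a4 : (1 / 2 - u) + (n + 1) ≠ 0 := by intro h; linarith
  have a5 : (n : ℝ) + (1 / 2 + u) ≠ 0 := by intro h; linarith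
  have a6 : (n : ℝ) + (1 / 2 + u) + 1 ≠ 0 := by intro h; linarith
  have a7 : (n : ℝ) + 1 ≠ 0 := by intro h; linarith
  have a8 : (n : ℝ) + 1 + 1 ≠ 0 := by intro h; linarith
  have a9 : (n : ℝ) + (1 / 2 : ℝ) ≠ 0 := by intro h; linarith
  have a10 : (n : ℝ) + (1 / 2 : ℝ) + 1 ≠ 0 := by intro h; linarith
  have b1 : 1 / (u - (n + 1)) + 1 / (u + (n + 1)) = - (2 * u / (((n : ℝ) + 1) ^ 2 - u ^ 2)) := by
    have : ((n : ℝ) + 1) ^ 2 - u ^ 2 ≠ 0 := by
      have : ((n : ℝ) + 1) ^ 2 - u ^ 2 = - ((u - (n + 1)) * (u + (n + 1))) := by ring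
      rw [this]
      exact neg_ne_zero.mpr (mul_ne_zero a1 a2)
    rw [div_add_div _ _ a1 a2, div_eq_iff (mul_ne_zero a1 a2), neg_mul, div_mul_eq_mul_div,
      eq_comm, neg_eq_iff_eq_neg, div_eq_iff this]
    ring
  have c1 : (n : ℝ) + 3 / 2 - u ≠ 0 := by intro h; linarith
  have c2 : (n : ℝ) + 3 / 2 + u ≠ 0 := by intro h; linarith
  have b2 : 2 * (1 / ((1 / 2 - u) - (n + 1)) + 1 / ((1 / 2 - u) + (n + 1)))
      + 2 * (1 / (n + (1 / 2 + u)) - 1 / (n + (1 / 2 + u) + 1))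
      = 4 * u / (((n : ℝ) + 3 / 2) ^ 2 - u ^ 2) := by
    have e3 : (1 / 2 - u) - ((n : ℝ) + 1) = - (n + (1 / 2 + u)) := by ring
    have e4 : (1 / 2 - u) + ((n : ℝ) + 1) = n + 3 / 2 - u := by ring
    have e6 : (n : ℝ) + (1 / 2 + u) + 1 = n + 3 / 2 + u := by ring
    rw [e3, e4, e6, aux1 _ _ _ c1 c2]
    have d : ((n : ℝ) + 3 / 2) ^ 2 - u ^ 2 = (n + 3 / 2 - u) * (n + 3 / 2 + u) := by ring
    rw [d]
    congr 1
    ring
  have s1 : ((n : ℝ) + 1) ^ 2 - u ^ 2 ≠ 0 := by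
    have : 0 < ((n : ℝ) + 1) ^ 2 - u ^ 2 := by nlinarith
    exact this.ne'
  have s2 : ((n : ℝ) + 3 / 2) ^ 2 - u ^ 2 ≠ 0 := by
    have : 0 < ((n : ℝ) + 3 / 2) ^ 2 - u ^ 2 := by nlinarith
    exact this.ne'
  have s3 : ((n : ℝ) + 1) ^ 2 - 1 / 4 ≠ 0 := by
    have : 0 < ((n : ℝ) + 1) ^ 2 - 1 / 4 := by nlinarith
    exact this.ne'
  have s4 : ((n : ℝ) + 3 / 2) ^ 2 - 1 / 4 ≠ 0 := by
    have : 0 < ((n : ℝ) + 3 / 2) ^ 2 - 1 / 4 := by nlinarith
    exact this.ne'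
  have b3 : 2 * (1 / (n + (1 : ℝ)) - 1 / (n + (1 : ℝ) + 1))
      = 2 / (((n : ℝ) + 3 / 2) ^ 2 - 1 / 4) := by
    have d : ((n : ℝ) + 3 / 2) ^ 2 - 1 / 4 = (n + 1) * (n + 1 + 1) := by ring
    rw [d]
    field_simp
    ring
  have b4 : 1 / (n + (1 / 2 : ℝ)) - 1 / (n + (1 / 2 : ℝ) + 1)
      = 1 / (((n : ℝ) + 1) ^ 2 - 1 / 4) := by
    have d : ((n : ℝ) + 1) ^ 2 - 1 / 4 = (n + 1 / 2) * (n + 1 / 2 + 1) := by ring
    rw [d]
    field_simp
    ring
  rw [add_assoc, b1, b2, b3, b4]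
  exact aux2 _ _ _ _ _ _ s1 s2 s4 s3 (by ring) (by ring)

/-- lower bound of the brackets -/
theorem term_ge {u : ℝ} (h0 : 0 < u) (h1 : u < 1 / 2) (n : ℕ) :
    (if n = 0 then (1 : ℝ) else 0) - 1 / 3 * (1 / (n + (1 : ℝ)) - 1 / (n + (1 : ℝ) + 1))
      ≤ 1 / (((n + 1) ^ 2 - u ^ 2) * ((n + 1) ^ 2 - 1 / 4))
        - 2 / (((n + 3 / 2) ^ 2 - u ^ 2) * ((n + 3 / 2) ^ 2 - 1 / 4)) := by
  have hu : u ^ 2 < 1 / 4 := by nlinarith
  have hu0 : 0 < u ^ 2 := by positivity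
  by_cases hn : n = 0
  · subst hn
    simp only [if_true, Nat.cast_zero, zero_add]
    have a : (4 / 3 : ℝ) ≤ 1 / ((1 ^ 2 - u ^ 2) * (1 ^ 2 - 1 / 4)) := by
      rw [le_div_iff₀ (by nlinarith)]
      nlinarith
    have b : 2 / (((3 / 2 : ℝ) ^ 2 - u ^ 2) * ((3 / 2) ^ 2 - 1 / 4)) ≤ 1 / 2 := by
      rw [div_le_iff₀ (by nlinarith)]
      nlinarith
    linarith
  · have hn1 : (1 : ℝ) ≤ n := by exact_mod_cast Nat.one_le_iff_ne_zero.mpr hn
    rw [if_neg hn]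
    have a : 0 ≤ 1 / ((((n : ℝ) + 1) ^ 2 - u ^ 2) * ((n + 1) ^ 2 - 1 / 4)) := by
      apply div_nonneg zero_le_one
      apply mul_nonneg <;> nlinarith
    have b : 2 / ((((n : ℝ) + 3 / 2) ^ 2 - u ^ 2) * ((n + 3 / 2) ^ 2 - 1 / 4))
        ≤ 1 / 3 * (1 / (n + (1 : ℝ)) - 1 / (n + (1 : ℝ) + 1)) := by
      have e : 1 / 3 * (1 / (n + (1 : ℝ)) - 1 / (n + (1 : ℝ) + 1))
          = 1 / (3 * ((n + 1) * (n + 2))) := by
        have a7 : (n : ℝ) + 1 ≠ 0 := by intro h; linarith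
        have a8 : (n : ℝ) + 1 + 1 ≠ 0 := by intro h; linarith
        have a9 : (n : ℝ) + 2 ≠ 0 := by intro h; linarith
        field_simp
        ring
      rw [e]
      have p1 : ((n : ℝ) + 1) * (n + 2) ≤ ((n : ℝ) + 3 / 2) ^ 2 - u ^ 2 := by nlinarith
      have p2 : ((n : ℝ) + 1) * (n + 2) ≤ (n + 3 / 2) ^ 2 - 1 / 4 := by nlinarith
      have p3 : 6 ≤ ((n : ℝ) + 1) * (n + 2) := by nlinarith
      rw [div_le_div_iff₀ (by nlinarith) (by nlinarith)]
      have p4 : (((n : ℝ) + 1) * (n + 2)) * (((n : ℝ) + 1) * (n + 2))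
          ≤ (((n : ℝ) + 3 / 2) ^ 2 - u ^ 2) * ((n + 3 / 2) ^ 2 - 1 / 4) :=
        mul_le_mul p1 p2 (by linarith) (by linarith)
      nlinarith
    linarith

/-- the main inequality -/
theorem main_ineq {u : ℝ} (h0 : 0 < u) (h1 : u < 1 / 2) :
    0 < (Real.pi * (Real.cos (Real.pi * u) / Real.sin (Real.pi * u)) - 1 / u)
      + 2 * (Real.pi * (Real.cos (Real.pi * (1 / 2 - u)) / Real.sin (Real.pi * (1 / 2 - u)))
        - 1 / (1 / 2 - u)) + 2 * (1 / (1 / 2 + u)) := by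
  have H1 := cot_hasSum h0 (by linarith : u < 1)
  have H2 := (cot_hasSum (by linarith : (0 : ℝ) < 1 / 2 - u) (by linarith)).mul_left 2
  have H3 := (tele (1 / 2 + u) (by linarith)).mul_left 2
  have H4 := ((tele 1 one_pos).mul_left 2).sub (tele (1 / 2) (by norm_num))
  have H5 := (((H1.add H2).add H3).sub (H4.mul_left (2 * u)))
  have z : (2 * (1 / 1) - 1 / (1 / 2) : ℝ) = 0 := by norm_num
  rw [z, mul_zero, sub_zero] at H5
  have H6 := H5
  simp_rw [term_eq h0 h1] at H6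
  have H7 : HasSum (fun n : ℕ => 2 * u * (1 / 4 - u ^ 2)
      * ((if n = 0 then (1 : ℝ) else 0) - 1 / 3 * (1 / (n + (1 : ℝ)) - 1 / (n + (1 : ℝ) + 1))))
      (2 * u * (1 / 4 - u ^ 2) * (1 - 1 / 3 * (1 / 1))) :=
    ((hasSum_ite_eq 0 (1 : ℝ)).sub ((tele 1 one_pos).mul_left (1 / 3))).mul_left _
  have hu : u ^ 2 < 1 / 4 := by nlinarith
  have hpos : 0 < 2 * u * (1 / 4 - u ^ 2) := by
    apply mul_pos (by linarith) (by linarith)
  have hle := hasSum_le (fun n => mul_le_mul_of_nonneg_left (term_ge h0 h1 n) hpos.le) H7 H6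
  have : 0 < 2 * u * (1 / 4 - u ^ 2) * (1 - 1 / 3 * (1 / 1)) := by
    apply mul_pos hpos (by norm_num)
  linarith

theorem sM_deriv {x : ℝ} (h0 : 0 < x) (h1 : x < Real.pi / 2) :
    HasDerivAt sM (sM x * (Real.cos x / Real.sin x - 1 / x + 2 * (Real.sin x / Real.cos x)
      - 4 * x / (Real.pi ^ 2 / 4 - x ^ 2))) x := by
  have hs : 0 < Real.sin x := Real.sin_pos_of_pos_of_lt_pi h0 (by linarith)
  have hc : 0 < Real.cos x := Real.cos_pos_of_mem_Ioo ⟨by linarith, h1⟩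
  have hq : 0 < Real.pi ^ 2 / 4 - x ^ 2 := by nlinarith
  have d1 : HasDerivAt (fun x : ℝ => Real.sin x / x)
      ((Real.cos x * x - Real.sin x * 1) / x ^ 2) x :=
    (Real.hasDerivAt_sin x).div (hasDerivAt_id x) h0.ne'
  have d2 : HasDerivAt (fun x : ℝ => Real.pi ^ 2 / 4 - x ^ 2) (- (2 * x)) x := by
    have := ((hasDerivAt_pow 2 x).const_sub (Real.pi ^ 2 / 4))
    simpa using this
  have d3 := d2.div (Real.hasDerivAt_cos x) hc.ne'
  have d4 := d3.pow 2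
  have d5 := d1.mul d4
  have hE : sM = (fun x : ℝ => Real.sin x / x) *
      ((fun x : ℝ => Real.pi ^ 2 / 4 - x ^ 2) / Real.cos) ^ 2 := by
    funext y
    rfl
  rw [hE]
  have := d5
  refine this.congr_deriv ?_
  simp only [Pi.mul_apply, Pi.pow_apply, Pi.div_apply, Nat.cast_ofNat]
  exact aux3 _ _ _ _ hs.ne' hc.ne' h0.ne' hq.ne'

theorem hmo : HmoStmt := by
  unfold HmoStmt
  apply strictMonoOn_of_deriv_pos (convex_Ioo _ _)
  · intro x hx
    exact (sM_deriv hx.1 hx.2).continuousAt.continuousWithinAt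
  · intro x hx
    rw [interior_Ioo] at hx
    obtain ⟨h0, h1⟩ := hx
    rw [(sM_deriv h0 h1).deriv]
    have hpi := Real.pi_pos
    have hs : 0 < Real.sin x := Real.sin_pos_of_pos_of_lt_pi h0 (by linarith)
    have hc : 0 < Real.cos x := Real.cos_pos_of_mem_Ioo ⟨by linarith, h1⟩
    have hq : 0 < Real.pi ^ 2 / 4 - x ^ 2 := by nlinarith
    have hM : 0 < sM x := by
      unfold sM
      positivity
    apply mul_pos hM
    have hu0 : 0 < x / Real.pi := by positivity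
    have hu1 : x / Real.pi < 1 / 2 := by
      rw [div_lt_iff₀ hpi]
      linarith
    have key := main_ineq hu0 hu1
    have e1 : Real.pi * (x / Real.pi) = x := by field_simp
    have e2 : Real.pi * (1 / 2 - x / Real.pi) = Real.pi / 2 - x := by field_simp
    rw [e1, e2, Real.cos_pi_div_two_sub, Real.sin_pi_div_two_sub] at key
    have e3 : Real.cos x / Real.sin x - 1 / x + 2 * (Real.sin x / Real.cos x)
        - 4 * x / (Real.pi ^ 2 / 4 - x ^ 2)
        = 1 / Real.pi * ((Real.pi * (Real.cos x / Real.sin x) - 1 / (x / Real.pi))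
          + 2 * (Real.pi * (Real.sin x / Real.cos x) - 1 / (1 / 2 - x / Real.pi))
          + 2 * (1 / (1 / 2 + x / Real.pi))) := by
      have hq1 : Real.pi / 2 - x ≠ 0 := by intro h; linarith
      have hq2 : Real.pi / 2 + x ≠ 0 := by intro h; linarith
      have f1 : 1 / (1 / 2 - x / Real.pi) = Real.pi / (Real.pi / 2 - x) := by
        rw [div_eq_div_iff (by intro h; apply hq1; field_simp at h; linarith) hq1]
        field_simp
      have f2 : 1 / (1 / 2 + x / Real.pi) = Real.pi / (Real.pi / 2 + x) := by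
        rw [div_eq_div_iff (by intro h; apply hq2; field_simp at h; linarith) hq2]
        field_simp
      have f3 : 1 / (x / Real.pi) = Real.pi / x := by field_simp
      have f4 : 4 * x / (Real.pi ^ 2 / 4 - x ^ 2)
          = 2 / (Real.pi / 2 - x) - 2 / (Real.pi / 2 + x) := by
        have : Real.pi ^ 2 / 4 - x ^ 2 = (Real.pi / 2 - x) * (Real.pi / 2 + x) := by ring
        rw [this, div_sub_div _ _ hq1 hq2]
        congr 1
        ring
      rw [f1, f2, f3, f4]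
      have hpi' := hpi.ne'
      field_simp
      ring
    rw [e3]
    exact mul_pos (by positivity) key

end Pool.Agent.QUD.H94
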