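import Pool.Agent.QUD.StmtsL

/-!
# Squad QUD, row LST (helper94)

None, one, or two adjacent sides of a quadrilateral die at the first level.
-/

set_option autoImplicit false

namespace Pool.Agent.QUD.H94

open MeasureTheory Complex Filter Topology ProbabilityTheory Pool.Agent.H16Iso Pool.Agent.H62T
open Pool.Agent.H16F (Sublin ind)
open Pool.Agent.AEU Pool.Agent.XQ Pool.Agent.QUD

theorem set_rot (a b c d : HP) : ({b, c, d, a} : Finset HP) = {a, b, c, d} := by
  ext x
  simp only [Finset.mem_insert, Finset.mem_singleton]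
  tauto

theorem cyc_rot {a b c d : HP} (h : Cyc a b c d) : Cyc b c d a := by
  obtain ⟨h1, h2, h3, h4, h5, h6, h7, h8, h9, h10⟩ := h
  obtain ⟨n1, n2, n3, n4, n5, n6⟩ := h1
  have e := set_rot a b c d
  refine ⟨⟨n4, n5, n1.symm, n6, n2.symm, n3.symm⟩, ?_, h4, h5, h6, h3, ?_, ?_, ?_, ?_⟩
  · rw [e]; exact h2
  · rw [e]; exact h8
  · rw [e]; exact h9
  · rw [e]; exact h10
  · rw [e]; exact h7

theorem mem_four {X : Finset HP} {L : ℝ} {a b c d : HP} (hC : Cyc a b c d) (hX : X = {a, b, c, d})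
    {S : Finset HP} (hS : S ∈ N1 X L) :
    S = {a, b, c} ∨ S = {b, c, d} ∨ S = {c, d, a} ∨ S = {d, a, b} := by
  classical
  obtain ⟨n1, n2, n3, n4, n5, n6⟩ := hC.ne
  unfold N1 at hS
  rw [Finset.mem_filter, Finset.mem_powersetCard] at hS
  obtain ⟨⟨hs, hc⟩, _⟩ := hS
  have hX4 : X.card = 4 := by
    rw [hX]
    rw [Finset.card_insert_of_notMem, Finset.card_insert_of_notMem, Finset.card_insert_of_notMem,
      Finset.card_singleton]
    · simp [n6]
    · simp [n4, n5]
    · simp [n1, n2, n3]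
  have hne : ∃ s ∈ X, s ∉ S := by
    by_contra hcon
    push Not at hcon
    have : X ⊆ S := fun s hs' => hcon s hs'
    have := Finset.card_le_card this
    omega
  obtain ⟨s, hsX, hsS⟩ := hne
  have hE : S = X.erase s := by
    apply Finset.eq_of_subset_of_card_le
    · intro t ht
      rw [Finset.mem_erase]
      refine ⟨?_, hs ht⟩
      rintro rfl
      exact hsS ht
    · rw [Finset.card_erase_of_mem hsX]
      omega
  subst hX
  simp only [Finset.mem_insert, Finset.mem_singleton] at hsX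
  rcases hsX with rfl | rfl | rfl | rfl
  · right; left
    rw [hE]
    ext x
    simp only [Finset.mem_erase, Finset.mem_insert, Finset.mem_singleton]
    constructor
    · tauto
    · rintro (rfl | rfl | rfl)
      · exact ⟨n1.symm, by tauto⟩
      · exact ⟨n2.symm, by tauto⟩
      · exact ⟨n3.symm, by tauto⟩
  · right; right; left
    rw [hE]
    ext x
    simp only [Finset.mem_erase, Finset.mem_insert, Finset.mem_singleton]
    constructor
    · tauto
    · rintro (rfl | rfl | rfl)
      · exact ⟨n4.symm, by tauto⟩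
      · exact ⟨n5.symm, by tauto⟩
      · exact ⟨n1, by tauto⟩
  · right; right; right
    rw [hE]
    ext x
    simp only [Finset.mem_erase, Finset.mem_insert, Finset.mem_singleton]
    constructor
    · tauto
    · rintro (rfl | rfl | rfl)
      · exact ⟨n6.symm, by tauto⟩
      · exact ⟨n2, by tauto⟩
      · exact ⟨n4, by tauto⟩
  · left
    rw [hE]
    ext x
    simp only [Finset.mem_erase, Finset.mem_insert, Finset.mem_singleton]
    constructor
    · tauto
    · rintro (rfl | rfl | rfl)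
      · exact ⟨n3, by tauto⟩
      · exact ⟨n5, by tauto⟩
      · exact ⟨n6, by tauto⟩

/-- opposite triples do not both die -/
theorem excl (h1 : KinStmt) {X : Finset HP} {L : ℝ} {a b c d : HP} (hC : Cyc a b c d)
    (hX : X = {a, b, c, d}) (hL : 0 < L) (hB : Below X L) (hm : ({a, b, c} : Finset HP) ∈ N1 X L) :
    ({c, d, a} : Finset HP) ∉ N1 X L := by
  intro hm'
  have e : ({c, d, a, b} : Finset HP) = X := by
    rw [hX]; ext x; simp only [Finset.mem_insert, Finset.mem_singleton]; tauto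
  have k1 := (h1 a b c d L hC hL (hX ▸ hB) (hX ▸ hm)).1
  have k2 := (h1 c d a b L (cyc_rot (cyc_rot hC)) hL (e.symm ▸ hB) (e.symm ▸ hm')).1
  unfold dt at k1 k2
  linarith

theorem aux (h1 : KinStmt) {X : Finset HP} {L : ℝ} {a b c d : HP} (hC : Cyc a b c d)
    (hX : X = {a, b, c, d}) (hL : 0 < L) (hB : Below X L) (hm : ({a, b, c} : Finset HP) ∈ N1 X L)
    (hn : ({b, c, d} : Finset HP) ∉ N1 X L) : ∃ l : List (ℝ × ℝ), Lst X L l := by
  have hx := excl h1 hC hX hL hB hm
  obtain ⟨_, x, y, hD⟩ := h1 a b c d L hC hL (hX ▸ hB) (hX ▸ hm)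
  by_cases hd : ({d, a, b} : Finset HP) ∈ N1 X L
  · have hC' : Cyc d a b c := cyc_rot (cyc_rot (cyc_rot hC))
    have e : ({d, a, b, c} : Finset HP) = X := by
      rw [hX]; ext x; simp only [Finset.mem_insert, Finset.mem_singleton]; tauto
    obtain ⟨_, z, x', hD'⟩ := h1 d a b c L hC' hL (e.symm ▸ hB) (e.symm ▸ hd)
    have hxx : x' = x := by
      apply Real.injOn_cos ⟨hD'.y0.le, hD'.y1.le⟩ ⟨hD.x0.le, hD.x1.le⟩
      have := hD'.cy
      have := hD.cx
      linarith
    subst hxx
    refine ⟨[(x', y), (x', z)], Or.inr (Or.inr ⟨a, b, c, d, x', y, z, hX, hC, hD, hD', ?_, rfl⟩)⟩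
    ext S
    simp only [Finset.mem_insert, Finset.mem_singleton]
    constructor
    · intro hS
      rcases mem_four hC hX hS with h | h | h | h
      · exact Or.inl h
      · exact absurd (h ▸ hS) hn
      · exact absurd (h ▸ hS) hx
      · exact Or.inr h
    · rintro (rfl | rfl)
      · exact hm
      · exact hd
  · refine ⟨[(x, y)], Or.inr (Or.inl ⟨a, b, c, d, x, y, hX, hC, hD, ?_, rfl⟩)⟩
    ext S
    simp only [Finset.mem_singleton]
    constructor
    · intro hS
      rcases mem_four hC hX hS with h | h | h | h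
      · exact h
      · exact absurd (h ▸ hS) hn
      · exact absurd (h ▸ hS) hx
      · exact absurd (h ▸ hS) hd
    · rintro rfl
      exact hm

theorem aux2 (h1 : KinStmt) {X : Finset HP} {L : ℝ} {a b c d : HP} (hC : Cyc a b c d)
    (hX : X = {a, b, c, d}) (hL : 0 < L) (hB : Below X L)
    (hm : ({a, b, c} : Finset HP) ∈ N1 X L) : ∃ l : List (ℝ × ℝ), Lst X L l := by
  by_cases hn : ({b, c, d} : Finset HP) ∈ N1 X L
  · have hx := excl h1 hC hX hL hB hm
    exact aux h1 (cyc_rot hC) (hX.trans (set_rot a b c d).symm) hL hB hn hx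
  · exact aux h1 hC hX hL hB hm hn

theorem lst (h1 : KinStmt) : LstStmt := by
  intro X L hQ hL hB
  obtain ⟨a, b, c, d, hC, hX⟩ := hQ
  by_cases h0 : N1 X L = ∅
  · exact ⟨[], Or.inl ⟨rfl, h0⟩⟩
  · obtain ⟨S, hS⟩ := Finset.nonempty_iff_ne_empty.mpr h0
    have e1 : X = {b, c, d, a} := hX.trans (set_rot a b c d).symm
    have e2 : X = {c, d, a, b} := e1.trans (set_rot b c d a).symm
    have e3 : X = {d, a, b, c} := e2.trans (set_rot c d a b).symm
    rcases mem_four hC hX hS with h | h | h | h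
    · exact aux2 h1 hC hX hL hB (h ▸ hS)
    · exact aux2 h1 (cyc_rot hC) e1 hL hB (h ▸ hS)
    · exact aux2 h1 (cyc_rot (cyc_rot hC)) e2 hL hB (h ▸ hS)
    · exact aux2 h1 (cyc_rot (cyc_rot (cyc_rot hC))) e3 hL hB (h ▸ hS)

end Pool.Agent.QUD.H94
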